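import Pool.Agent.Sok.Top
import Pool.Agent.Sok.EAll

set_option autoImplicit false

theorem Pool.Agent.Results.MP_97ada9_an.Full.result (N : ℕ) (hN : 1 ≤ N) (q : ℂ) (hq : ‖q‖ < 1)
    (P : Polynomial ℂ)
    (hP : P = ∑ n ∈ Finset.range (N + 1),
      Polynomial.C ((N.choose n : ℂ) * q ^ (n * (n - 1) / 2)) * Polynomial.X ^ n) :
    P ≠ 0 ∧ (∀ z : ℂ, P.rootMultiplicity z ≤ 1) ∧
      ∀ l : List ℂ, (l : Multiset ℂ) = P.roots → l.Pairwise (fun z w => ‖z‖ ≤ ‖w‖) →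
        ∀ (j : ℕ) (h : j + 1 < l.length), ‖l[j]‖ ≤ ‖q‖ * ‖l[j + 1]‖ := by
  classical
  obtain ⟨h1, h2⟩ := Pool.Agent.MP_97ada9_an.reduction (Pool.Agent.Sok.partE Pool.Agent.Sok.asym) N hN q hq P hP
  have h0 : P ≠ 0 := by
    intro e
    have : P.coeff 0 = 1 := by
      rw [hP, Polynomial.finsetSum_coeff, Finset.sum_eq_single 0] <;> simp +contextual [Polynomial.coeff_X_pow, eq_comm]
    rw [e] at this
    simp at this
  refine ⟨h0, fun z => ?_, fun l hl hs j h => ?_⟩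
  · rw [← Polynomial.count_roots]
    exact Multiset.nodup_iff_count_le_one.1 h1 z
  · have hr : ∀ i (hi : i < l.length), P.IsRoot l[i] := fun i hi =>
      (Polynomial.mem_roots h0).1 (hl ▸ Multiset.mem_coe.2 (List.getElem_mem hi))
    have hn : l.Nodup := Multiset.coe_nodup.1 (hl ▸ h1)
    refine h2 _ _ (hr _ _) (hr _ _) (fun e => ?_) (List.pairwise_iff_getElem.1 hs _ _ _ _ (Nat.lt_succ_self j))
    exact absurd ((List.Nodup.getElem_inj_iff hn).1 e) (by omega)
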